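import Pool.Agent.Work.MP_2dff99_ag.F5.Final

open MvPolynomial Pool.Agent.Work.MP_2dff99_ag.F5

namespace Pool.Agent.Results.MP_2dff99_ag.FinitePrimeObstruction

/-- The sum of the local invariants of the Brauer class is nonzero at every adelic point, for all
local invariants that vanish exactly at the trivial classes. -/
def NoAdelicPoint : Prop :=
  ∀ (invR : RatPoint ℝ → AddCircle (1 : ℚ))
    (inv : ∀ p : Nat.Primes, (letI : Fact (p : ℕ).Prime := ⟨p.2⟩; RatPoint ℚ_[p]) → AddCircle (1 : ℚ)),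
    (∀ x, invR x = 0 ↔ x.Descends) →
    (∀ p x, inv p x = 0 ↔ (letI : Fact (p : ℕ).Prime := ⟨p.2⟩; x.Descends)) →
    ∀ (xR : RatPoint ℝ) (x : ∀ p : Nat.Primes, (letI : Fact (p : ℕ).Prime := ⟨p.2⟩; RatPoint ℚ_[p])),
      invR xR + ∑ᶠ p : Nat.Primes, inv p (x p) ≠ 0

theorem result :
    (∀ (k : Type) [Field k] [CharZero k] (v : Fin 3 → k), v ≠ 0 → ∃ i : Fin 3,
      eval v (pderiv i (sextic (fun j : Fin 3 => (X j : MvPolynomial (Fin 3) k)))) ≠ 0) ∧
    (∀ (k : Type) [Field k] [CharZero k] (S : Sheaf k), S.OfClass → S.Stable) ∧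
    (∀ (p : ℕ) [Fact p.Prime], Nonempty (RatPoint ℚ_[p])) ∧
    Nonempty (RatPoint ℝ) ∧
    (∀ x : RatPoint ℝ, x.Descends) ∧
    (∀ (p : ℕ) [Fact p.Prime] (x : RatPoint ℚ_[p]), x.Descends ↔ p ≠ 5) ∧
    NoAdelicPoint ∧
    (∃ (L : Type) (_ : Field L) (_ : Algebra ℚ L), Module.finrank ℚ L = 3 ∧
      ∃ x : RatPoint L, x.Descends) ∧
    ∃ (L : Type) (_ : Field L) (_ : Algebra ℚ L), Module.finrank ℚ L = 2 ∧
      ∃ x : RatPoint L, x.Descends := by
  have hp : ∀ (p : ℕ) [Fact p.Prime] (x : RatPoint ℚ_[p]), x.Descends ↔ p ≠ 5 := by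
    intro p _ x
    constructor
    · rintro h rfl
      exact five_not_descends x h
    · intro h5
      exact descends_of_split ℚ_[p] (split_all p h5) x
  have hR : ∀ x : RatPoint ℝ, x.Descends := fun x => descends_of_split ℝ split_real x
  refine ⟨fun k _ _ v hv => smooth_sextic k v hv, fun k _ _ S h => stable_of_class k S h,
    fun p _ => ?_, real_point, hR, hp, ?_, ?_, ?_⟩
  · by_cases h5 : p = 5
    · subst h5
      exact five_point
    · obtain ⟨D⟩ := exists_datum p h5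
      obtain ⟨x, -⟩ := descPoint_of_datum _ D
      exact ⟨x⟩
  · intro invR inv h1 h2 xR x
    have hF : Fact (Nat.Prime 5) := ⟨Nat.prime_five⟩
    have h3 : ∑ᶠ p : Nat.Primes, inv p (x p) = inv ⟨5, Nat.prime_five⟩ (x ⟨5, Nat.prime_five⟩) := by
      apply finsum_eq_single
      intro p hp5
      have : Fact (p : ℕ).Prime := ⟨p.2⟩
      refine (h2 p (x p)).2 ((hp p (x p)).2 ?_)
      intro h
      exact hp5 (Subtype.ext h)
    rw [h3, (h1 xR).2 (hR xR), zero_add]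
    intro h
    exact five_not_descends _ ((h2 ⟨5, Nat.prime_five⟩ (x ⟨5, Nat.prime_five⟩)).1 h)
  · obtain ⟨L, hL, hc, hA, h3, ⟨D⟩⟩ := cubic_point
    exact ⟨L, hL, hA, h3, descPoint_of_datum L D⟩
  · obtain ⟨L, hL, hc, hA, h3, ⟨D⟩⟩ := quad_point
    exact ⟨L, hL, hA, h3, descPoint_of_datum L D⟩

end Pool.Agent.Results.MP_2dff99_ag.FinitePrimeObstruction
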